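import Mathlib

set_option autoImplicit false

/-! Counting functions with prescribed values on a set. -/

namespace Pool.Agent.Helper77_HC

/-- The number of functions `ι → Bool` with prescribed values on `S`, times `2 ^ |S|`, is `2 ^ |ι|`. -/
theorem card_agree {ι : Type} [Fintype ι] [DecidableEq ι] (S : Finset ι) (g : ι → Bool) :
    (Finset.univ.filter (fun ω : ι → Bool => ∀ j ∈ S, ω j = g j)).card * 2 ^ S.card
      = 2 ^ Fintype.card ι := by
  have h1 : Finset.univ.filter (fun ω : ι → Bool => ∀ j ∈ S, ω j = g j)
      = Fintype.piFinset (fun j => if j ∈ S then {g j} else (Finset.univ : Finset Bool)) := by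
    ext ω
    simp only [Finset.mem_filter, Finset.mem_univ, true_and, Fintype.mem_piFinset]
    constructor
    · intro h j
      by_cases hj : j ∈ S
      · simp [hj, h j hj]
      · simp [hj]
    · intro h j hj
      have := h j
      simpa [hj] using this
  rw [h1, Fintype.card_piFinset]
  have h2 : ∀ j : ι, (if j ∈ S then {g j} else (Finset.univ : Finset Bool)).card
      = if j ∈ S then 1 else 2 := by
    intro j
    by_cases hj : j ∈ S <;> simp [hj]
  simp only [h2]
  rw [Finset.prod_ite]
  simp only [Finset.prod_const_one, one_mul, Finset.prod_const]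
  rw [← pow_add]
  congr 1
  have : (Finset.univ.filter (fun j => j ∉ S)).card = Fintype.card ι - S.card := by
    rw [← Finset.card_compl]
    congr 1
    ext j
    simp
  rw [this]
  exact Nat.sub_add_cancel (Finset.card_le_univ S)

end Pool.Agent.Helper77_HC
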