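import Mathlib
import Pool.Agent.Helper635.LLL
import Pool.Agent.Helper77_HC.Count

set_option autoImplicit false

/-! Proper halving 2-colourings by the local lemma: pair up the vertices and colour each pair
with the two different colours, in a random order. -/

namespace Pool.Agent.Helper77_HC

open Classical in
/-- position of a vertex in a fixed enumeration of `V` -/
noncomputable def idx (V : Finset ℕ) (v : ℕ) : ℕ :=
  if h : v ∈ V then (V.equivFin ⟨v, h⟩).val else 0

theorem idx_lt (V : Finset ℕ) {v : ℕ} (hv : v ∈ V) : idx V v < V.card := by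
  unfold idx
  rw [dif_pos hv]
  exact (V.equivFin ⟨v, hv⟩).isLt

theorem idx_inj (V : Finset ℕ) {v w : ℕ} (hv : v ∈ V) (hw : w ∈ V) (h : idx V v = idx V w) :
    v = w := by
  unfold idx at h
  rw [dif_pos hv, dif_pos hw] at h
  have h1 := V.equivFin.injective (Fin.ext h)
  exact congrArg Subtype.val h1

theorem idx_surj (V : Finset ℕ) {t : ℕ} (ht : t < V.card) : ∃ v ∈ V, idx V v = t := by
  refine ⟨(V.equivFin.symm ⟨t, ht⟩).val, (V.equivFin.symm ⟨t, ht⟩).2, ?_⟩
  unfold idx
  rw [dif_pos (V.equivFin.symm ⟨t, ht⟩).2]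
  simp

/-- `v` is red in the colouring given by `ω` -/
def red (V : Finset ℕ) (ω : Fin (V.card / 2) → Bool) (v : ℕ) : Prop :=
  ∃ hj : idx V v / 2 < V.card / 2, ω ⟨idx V v / 2, hj⟩ = decide (idx V v % 2 = 1)

open Classical in
/-- the set of red vertices -/
noncomputable def R (V : Finset ℕ) (ω : Fin (V.card / 2) → Bool) : Finset ℕ :=
  V.filter (fun v => red V ω v)

theorem mem_R {V : Finset ℕ} {ω : Fin (V.card / 2) → Bool} {v : ℕ} :
    v ∈ R V ω ↔ v ∈ V ∧ red V ω v := by
  classical
  unfold R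
  rw [Finset.mem_filter]

theorem card_R (V : Finset ℕ) (ω : Fin (V.card / 2) → Bool) : (R V ω).card = V.card / 2 := by
  classical
  have h : (R V ω).card = (Finset.univ : Finset (Fin (V.card / 2))).card := by
    refine Finset.card_bij (fun v hv => ⟨idx V v / 2, (mem_R.1 hv).2.1⟩) ?_ ?_ ?_
    · intro v hv
      exact Finset.mem_univ _
    · intro v hv w hw hvw
      have h1 : idx V v / 2 = idx V w / 2 := congrArg Fin.val hvw
      obtain ⟨hv1, hv2, hv3⟩ := mem_R.1 hv
      obtain ⟨hw1, hw2, hw3⟩ := mem_R.1 hw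
      have h2 : decide (idx V v % 2 = 1) = decide (idx V w % 2 = 1) := by
        rw [← hv3, ← hw3]
        congr 1
      have h3 : idx V v % 2 = 1 ↔ idx V w % 2 = 1 := by
        simpa using h2
      refine idx_inj V hv1 hw1 ?_
      omega
    · intro j _
      have hj := j.isLt
      obtain ⟨v, hv, hvt⟩ := idx_surj V (t := 2 * j.val + (if ω j = true then 1 else 0)) (by
        split_ifs <;> omega)
      have h1 : idx V v / 2 = j.val := by
        rw [hvt]
        split_ifs <;> omega
      have hlt : idx V v / 2 < V.card / 2 := by rw [h1]; exact hj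
      have hfin : (⟨idx V v / 2, hlt⟩ : Fin (V.card / 2)) = j := Fin.ext h1
      refine ⟨v, mem_R.2 ⟨hv, hlt, ?_⟩, hfin⟩
      rw [hfin, hvt]
      by_cases hω : ω j = true
      · simp [hω]
      · simp only [Bool.not_eq_true] at hω
        simp [hω]
  rw [h, Finset.card_univ, Fintype.card_fin]

/-- the pairs met by `A` -/
noncomputable def S (V : Finset ℕ) (A : Finset ℕ) : Finset (Fin (V.card / 2)) :=
  Finset.univ.filter (fun j => ∃ v ∈ A, idx V v / 2 = j.val)

theorem mem_S {V A : Finset ℕ} {j : Fin (V.card / 2)} :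
    j ∈ S V A ↔ ∃ v ∈ A, idx V v / 2 = j.val := by
  unfold S
  simp

/-- the bad event: `A` is monochromatic -/
def bad (V : Finset ℕ) (A : Finset ℕ) (ω : Fin (V.card / 2) → Bool) : Prop :=
  (∀ v ∈ A, v ∉ R V ω) ∨ (∀ v ∈ A, v ∈ R V ω)

theorem bad_dep (V A : Finset ℕ) :
    Pool.Agent.Helper635.LLL.DependsOn (bad V A) (S V A) := by
  intro ω ω' h
  have key : ∀ v ∈ A, (v ∈ R V ω ↔ v ∈ R V ω') := by
    intro v hv
    rw [mem_R, mem_R]
    constructor
    · rintro ⟨h1, h2, h3⟩
      refine ⟨h1, h2, ?_⟩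
      rw [← h ⟨idx V v / 2, h2⟩ (mem_S.2 ⟨v, hv, rfl⟩)]
      exact h3
    · rintro ⟨h1, h2, h3⟩
      refine ⟨h1, h2, ?_⟩
      rw [h ⟨idx V v / 2, h2⟩ (mem_S.2 ⟨v, hv, rfl⟩)]
      exact h3
  rintro (h1 | h1)
  · left
    intro v hv
    rw [← key v hv]
    exact h1 v hv
  · right
    intro v hv
    rw [← key v hv]
    exact h1 v hv

theorem bad_false (V A : Finset ℕ) (hAV : A ⊆ V) {v w : ℕ} (hv : v ∈ A) (hw : w ∈ A)
    (hvw : v ≠ w) (he : idx V v / 2 = idx V w / 2) (hlt : idx V v / 2 < V.card / 2)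
    (ω : Fin (V.card / 2) → Bool) : ¬ bad V A ω := by
  have hne : idx V v ≠ idx V w := fun h => hvw (idx_inj V (hAV hv) (hAV hw) h)
  have hltw : idx V w / 2 < V.card / 2 := by omega
  have hfin : (⟨idx V v / 2, hlt⟩ : Fin (V.card / 2)) = ⟨idx V w / 2, hltw⟩ := Fin.ext he
  have hdec : decide (idx V v % 2 = 1) = ! decide (idx V w % 2 = 1) := by
    by_cases h1 : idx V v % 2 = 1
    · have h2 : ¬ idx V w % 2 = 1 := by omega
      simp [h1, h2]
    · have h2 : idx V w % 2 = 1 := by omega
      simp [h1, h2]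
  have hiff : v ∈ R V ω ↔ w ∉ R V ω := by
    rw [mem_R, mem_R]
    constructor
    · rintro ⟨_, _, h3⟩ ⟨_, _, h6⟩
      rw [hfin, h6, hdec] at h3
      cases hx : decide (idx V w % 2 = 1) <;> simp [hx] at h3
    · intro h
      refine ⟨hAV hv, hlt, ?_⟩
      rw [hfin, hdec]
      by_contra h7
      apply h
      refine ⟨hAV hw, hltw, ?_⟩
      cases hx : decide (idx V w % 2 = 1) <;> cases hy : ω ⟨idx V w / 2, hltw⟩ <;>
        simp_all
  rintro (h1 | h1)
  · have h2 := h1 v hv
    have h3 := h1 w hw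
    exact h2 (hiff.2 h3)
  · have h2 := h1 v hv
    have h3 := h1 w hw
    exact (hiff.1 h2) h3

theorem card_S (V A : Finset ℕ) (hAV : A ⊆ V)
    (hinj : ∀ v ∈ A, ∀ w ∈ A, v ≠ w → idx V v / 2 = idx V w / 2 →
      ¬ idx V v / 2 < V.card / 2) : A.card ≤ (S V A).card + 1 := by
  classical
  have h1 : (A.filter (fun v => idx V v / 2 < V.card / 2)).card ≤ (S V A).card := by
    have e1 : ((A.filter (fun v => idx V v / 2 < V.card / 2)).image
        (fun v => idx V v / 2)).card = (A.filter (fun v => idx V v / 2 < V.card / 2)).card := by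
      refine Finset.card_image_of_injOn ?_
      intro v hv w hw hvw
      simp only [Finset.coe_filter, Set.mem_ofPred_eq] at hv hw
      by_contra hne
      exact hinj v hv.1 w hw.1 hne hvw hv.2
    have e2 : ((A.filter (fun v => idx V v / 2 < V.card / 2)).image
        (fun v => idx V v / 2)) ⊆ (S V A).image (fun j => j.val) := by
      intro t ht
      rw [Finset.mem_image] at ht ⊢
      obtain ⟨v, hv, rfl⟩ := ht
      rw [Finset.mem_filter] at hv
      exact ⟨⟨idx V v / 2, hv.2⟩, mem_S.2 ⟨v, hv.1, rfl⟩, rfl⟩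
    rw [← e1]
    exact (Finset.card_le_card e2).trans Finset.card_image_le
  have h2 : (A.filter (fun v => ¬ idx V v / 2 < V.card / 2)).card ≤ 1 := by
    rw [Finset.card_le_one]
    intro v hv w hw
    rw [Finset.mem_filter] at hv hw
    have hv1 := idx_lt V (hAV hv.1)
    have hw1 := idx_lt V (hAV hw.1)
    refine idx_inj V (hAV hv.1) (hAV hw.1) ?_
    have hv2 := hv.2
    have hw2 := hw.2
    omega
  have h3 := Finset.card_filter_add_card_filter_not (s := A)
    (fun v => idx V v / 2 < V.card / 2)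
  omega

theorem cnt_bad (V A : Finset ℕ) (hAV : A ⊆ V) (n : ℕ) (hn : 1 ≤ n) (hA : A.card = n) :
    (Pool.Agent.Helper635.LLL.cnt (bad V A) : ℝ) ≤
      (4 / 2 ^ n : ℝ) * Fintype.card (Fin (V.card / 2) → Bool) := by
  classical
  by_cases hcase : ∃ v ∈ A, ∃ w ∈ A, v ≠ w ∧ idx V v / 2 = idx V w / 2 ∧
      idx V v / 2 < V.card / 2
  · obtain ⟨v, hv, w, hw, hvw, he, hlt⟩ := hcase
    have h0 : Pool.Agent.Helper635.LLL.cnt (bad V A) = 0 := by
      unfold Pool.Agent.Helper635.LLL.cnt
      rw [Finset.card_eq_zero, Finset.eq_empty_iff_forall_notMem]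
      intro ω hω
      rw [Pool.Agent.Helper635.LLL.mem_ev] at hω
      exact bad_false V A hAV hv hw hvw he hlt ω hω
    rw [h0, Nat.cast_zero]
    positivity
  · have hS : A.card ≤ (S V A).card + 1 := by
      refine card_S V A hAV ?_
      intro v hv w hw hvw he hlt
      exact hcase ⟨v, hv, w, hw, hvw, he, hlt⟩
    -- a vertex of `A` for every pair
    have hch : ∀ j : Fin (V.card / 2), ∃ v : ℕ, j ∈ S V A → v ∈ A ∧ idx V v / 2 = j.val := by
      intro j
      by_cases hj : j ∈ S V A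
      · obtain ⟨v, hv, hvj⟩ := mem_S.1 hj
        exact ⟨v, fun _ => ⟨hv, hvj⟩⟩
      · exact ⟨0, fun h => absurd h hj⟩
    choose f hf using hch
    have hsub : Pool.Agent.Helper635.LLL.ev (bad V A) ⊆
        (Finset.univ.filter (fun ω : Fin (V.card / 2) → Bool =>
          ∀ j ∈ S V A, ω j = ! decide (idx V (f j) % 2 = 1))) ∪
        (Finset.univ.filter (fun ω : Fin (V.card / 2) → Bool =>
          ∀ j ∈ S V A, ω j = decide (idx V (f j) % 2 = 1))) := by
      intro ω hω
      rw [Pool.Agent.Helper635.LLL.mem_ev] at hω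
      rw [Finset.mem_union, Finset.mem_filter, Finset.mem_filter]
      rcases hω with h | h
      · left
        refine ⟨Finset.mem_univ _, ?_⟩
        intro j hj
        obtain ⟨h1, h2⟩ := hf j hj
        have h3 := h (f j) h1
        rw [mem_R] at h3
        have hlt : idx V (f j) / 2 < V.card / 2 := by rw [h2]; exact j.isLt
        have hfin : (⟨idx V (f j) / 2, hlt⟩ : Fin (V.card / 2)) = j := Fin.ext h2
        by_contra hne
        apply h3
        refine ⟨hAV h1, hlt, ?_⟩
        rw [hfin]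
        cases hx : decide (idx V (f j) % 2 = 1) <;> cases hy : ω j <;> simp_all
      · right
        refine ⟨Finset.mem_univ _, ?_⟩
        intro j hj
        obtain ⟨h1, h2⟩ := hf j hj
        have h3 := h (f j) h1
        rw [mem_R] at h3
        obtain ⟨_, hlt, h5⟩ := h3
        have hfin : (⟨idx V (f j) / 2, hlt⟩ : Fin (V.card / 2)) = j := Fin.ext h2
        rw [hfin] at h5
        exact h5
    have hcard := (Finset.card_le_card hsub).trans (Finset.card_union_le _ _)
    have c1 : (Finset.univ.filter (fun ω : Fin (V.card / 2) → Bool =>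
          ∀ j ∈ S V A, ω j = ! decide (idx V (f j) % 2 = 1))).card * 2 ^ (S V A).card
          = 2 ^ (V.card / 2) := by
      have h := card_agree (S V A) (fun j => ! decide (idx V (f j) % 2 = 1))
      rw [Fintype.card_fin] at h
      convert h
    have c2 : (Finset.univ.filter (fun ω : Fin (V.card / 2) → Bool =>
          ∀ j ∈ S V A, ω j = decide (idx V (f j) % 2 = 1))).card * 2 ^ (S V A).card
          = 2 ^ (V.card / 2) := by
      have h := card_agree (S V A) (fun j => decide (idx V (f j) % 2 = 1))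
      rw [Fintype.card_fin] at h
      convert h
    have hle : Pool.Agent.Helper635.LLL.cnt (bad V A) * 2 ^ (S V A).card ≤
        2 * 2 ^ (V.card / 2) := by
      unfold Pool.Agent.Helper635.LLL.cnt
      calc (Pool.Agent.Helper635.LLL.ev (bad V A)).card * 2 ^ (S V A).card
          ≤ ((Finset.univ.filter (fun ω : Fin (V.card / 2) → Bool =>
          ∀ j ∈ S V A, ω j = ! decide (idx V (f j) % 2 = 1))).card +
        (Finset.univ.filter (fun ω : Fin (V.card / 2) → Bool =>
          ∀ j ∈ S V A, ω j = decide (idx V (f j) % 2 = 1))).card) * 2 ^ (S V A).card :=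
            Nat.mul_le_mul_right _ hcard
        _ = 2 * 2 ^ (V.card / 2) := by
            rw [add_mul, c1, c2]; ring
    have hle2 : Pool.Agent.Helper635.LLL.cnt (bad V A) * 2 ^ n ≤ 4 * 2 ^ (V.card / 2) := by
      have hpow : 2 ^ n ≤ 2 * 2 ^ (S V A).card := by
        rw [← pow_succ']
        exact Nat.pow_le_pow_right (by norm_num) (by omega)
      calc Pool.Agent.Helper635.LLL.cnt (bad V A) * 2 ^ n
          ≤ Pool.Agent.Helper635.LLL.cnt (bad V A) * (2 * 2 ^ (S V A).card) :=
            Nat.mul_le_mul_left _ hpow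
        _ = 2 * (Pool.Agent.Helper635.LLL.cnt (bad V A) * 2 ^ (S V A).card) := by ring
        _ ≤ 2 * (2 * 2 ^ (V.card / 2)) := Nat.mul_le_mul_left _ hle
        _ = 4 * 2 ^ (V.card / 2) := by ring
    have hle3 : (Pool.Agent.Helper635.LLL.cnt (bad V A) : ℝ) * 2 ^ n ≤
        4 * 2 ^ (V.card / 2) := by exact_mod_cast hle2
    have hc : (Fintype.card (Fin (V.card / 2) → Bool) : ℝ) = 2 ^ (V.card / 2) := by
      rw [Fintype.card_fun, Fintype.card_bool, Fintype.card_fin]
      push_cast
      rfl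
    rw [hc, div_mul_eq_mul_div, le_div_iff₀ (by positivity)]
    exact hle3

theorem deg_bad (F : Finset (Finset ℕ)) (V : Finset ℕ) (n D : ℕ)
    (hV : ∀ A ∈ F, A ⊆ V) (hA : ∀ A ∈ F, A.card = n)
    (hD : ∀ v, (F.filter (fun A => v ∈ A)).card ≤ D) (A : Finset ℕ) (hAF : A ∈ F) :
    (F.filter (fun B => ¬ Disjoint (S V A) (S V B))).card ≤ 2 * n * D := by
  classical
  set P : Finset ℕ := A.biUnion (fun w => V.filter (fun u => idx V u / 2 = idx V w / 2)) with hP
  have hPc : P.card ≤ n * 2 := by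
    rw [← hA A hAF]
    refine Finset.card_biUnion_le_card_mul _ _ _ ?_
    intro w hw
    have e1 : ((V.filter (fun u => idx V u / 2 = idx V w / 2)).image (idx V)).card =
        (V.filter (fun u => idx V u / 2 = idx V w / 2)).card := by
      refine Finset.card_image_of_injOn ?_
      intro u hu u' hu' he
      simp only [Finset.coe_filter, Set.mem_ofPred_eq] at hu hu'
      exact idx_inj V hu.1 hu'.1 he
    have e2 : (V.filter (fun u => idx V u / 2 = idx V w / 2)).image (idx V) ⊆
        {2 * (idx V w / 2), 2 * (idx V w / 2) + 1} := by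
      intro t ht
      rw [Finset.mem_image] at ht
      obtain ⟨u, hu, rfl⟩ := ht
      rw [Finset.mem_filter] at hu
      rw [Finset.mem_insert, Finset.mem_singleton]
      have := hu.2
      omega
    rw [← e1]
    exact (Finset.card_le_card e2).trans Finset.card_le_two
  have hsub : F.filter (fun B => ¬ Disjoint (S V A) (S V B)) ⊆
      P.biUnion (fun u => F.filter (fun B => u ∈ B)) := by
    intro B hB
    rw [Finset.mem_filter] at hB
    obtain ⟨hBF, hnd⟩ := hB
    rw [Finset.not_disjoint_iff] at hnd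
    obtain ⟨j, hj1, hj2⟩ := hnd
    obtain ⟨w, hw, hwj⟩ := mem_S.1 hj1
    obtain ⟨u, hu, huj⟩ := mem_S.1 hj2
    rw [Finset.mem_biUnion]
    refine ⟨u, ?_, Finset.mem_filter.2 ⟨hBF, hu⟩⟩
    rw [hP, Finset.mem_biUnion]
    exact ⟨w, hw, Finset.mem_filter.2 ⟨hV B hBF hu, by omega⟩⟩
  calc (F.filter (fun B => ¬ Disjoint (S V A) (S V B))).card
      ≤ (P.biUnion (fun u => F.filter (fun B => u ∈ B))).card := Finset.card_le_card hsub
    _ ≤ P.card * D := Finset.card_biUnion_le_card_mul _ _ _ (fun u _ => hD u)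
    _ ≤ (n * 2) * D := Nat.mul_le_mul_right _ hPc
    _ = 2 * n * D := by ring

/-- The local lemma step. -/
theorem core (n D : ℕ) (hn : 1 ≤ n) (F : Finset (Finset ℕ)) (hA : ∀ A ∈ F, A.card = n)
    (hD : ∀ v, (F.filter (fun A => v ∈ A)).card ≤ D)
    (h4 : 4 * (4 / 2 ^ n : ℝ) * ((2 * n * D + 1 : ℕ) : ℝ) ≤ 1) :
    ∃ R : Finset ℕ, R ⊆ F.biUnion id ∧
      R.card = (F.biUnion id).card / 2 ∧
      ∀ A ∈ F, (A ∩ R).Nonempty ∧ ¬ A ⊆ R := by
  classical
  set V : Finset ℕ := F.biUnion id with hVdef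
  have hV : ∀ A ∈ F, A ⊆ V := by
    intro A hAF
    exact Finset.subset_biUnion_of_mem id hAF
  have h1 : ∀ A ∈ F, (Pool.Agent.Helper635.LLL.cnt (bad V A) : ℝ) ≤
      (4 / 2 ^ n : ℝ) * Fintype.card (Fin (V.card / 2) → Bool) :=
    fun A hAF => cnt_bad V A (hV A hAF) n hn (hA A hAF)
  have h2 : ∀ A ∈ F, (F.filter (fun B => ¬ Disjoint (S V A) (S V B))).card ≤ 2 * n * D + 1 :=
    fun A hAF => (deg_bad F V n D hV hA hD A hAF).trans (Nat.le_succ _)
  have h3 : 0 < Fintype.card (Fin (V.card / 2) → Bool) := Fintype.card_pos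
  obtain ⟨ω, hω⟩ := Pool.Agent.Helper635.LLL.lll F (bad V) (S V)
    (fun A _ => bad_dep V A) (4 / 2 ^ n) (2 * n * D + 1) (by positivity)
    (by
      intro A hAF
      convert h1 A hAF)
    (by
      intro A hAF
      convert h2 A hAF)
    h4 (by omega) (by convert h3)
  refine ⟨R V ω, ?_, card_R V ω, ?_⟩
  · intro v hv
    exact (mem_R.1 hv).1
  · intro A hAF
    have h := hω A hAF
    unfold bad at h
    push Not at h
    obtain ⟨⟨v, hv, hvR⟩, w, hw, hwR⟩ := h
    refine ⟨⟨v, Finset.mem_inter.2 ⟨hv, hvR⟩⟩, fun hs => hwR (hs hw)⟩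

end Pool.Agent.Helper77_HC
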